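import Mathlib

set_option autoImplicit false

namespace Pool.Agent.Results.MP_bfac72_an.Counter

open Set

section defs
variable {X : Type}

def Transitive [TopologicalSpace X] (T : X → X) : Prop :=
  ∀ U V : Set X, IsOpen U → U.Nonempty → IsOpen V → V.Nonempty →
    ∃ n : ℕ, (T^[n] '' U ∩ V).Nonempty

def WeaklyMixing [TopologicalSpace X] (T : X → X) : Prop := Transitive (Prod.map T T)

def S [MetricSpace X] (T : X → X) (U : Set X) (δ : ℝ) : Set ℕ :=
  {n | ∃ x ∈ U, ∃ y ∈ U, δ < dist (T^[n] x) (T^[n] y)}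

def fam [MetricSpace X] (T : X → X) (δ : ℝ) : Set (Set ℕ) :=
  {A | ∃ U : Set X, IsOpen U ∧ U.Nonempty ∧ S T U δ ⊆ A}

def IsFilter (F : Set (Set ℕ)) : Prop :=
  F.Nonempty ∧ F ≠ univ ∧ ∀ A ∈ F, ∀ B ∈ F, A ∩ B ∈ F

def FilterSensitive [MetricSpace X] (T : X → X) : Prop := ∃ δ : ℝ, 0 < δ ∧ IsFilter (fam T δ)

def Thick (A : Set ℕ) : Prop := ∀ K : ℕ, ∃ a : ℕ, ∀ t < K, a + t ∈ A

def ThicklySensitive [MetricSpace X] (T : X → X) : Prop :=
  ∃ δ : ℝ, 0 < δ ∧ ∀ U : Set X, IsOpen U → U.Nonempty → Thick (S T U δ)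

end defs

def P : Set ℕ := {n | n.unpair.1 ∈ (Denumerable.eqv (Finset ℕ)).symm n.unpair.2.unpair.1}

lemma gen (s : Finset ℕ) (M : ℕ) : ∃ a, M ≤ a ∧ ∀ i < M, (a + i ∈ P ↔ i ∈ s) := by
  have hb := Nat.right_le_pair (Denumerable.eqv (Finset ℕ) s) M
  refine ⟨Nat.pair (Denumerable.eqv (Finset ℕ) s) M * Nat.pair (Denumerable.eqv (Finset ℕ) s) M,
    hb.trans (Nat.le_mul_self _), fun i hi => ?_⟩
  have e : Nat.pair (Denumerable.eqv (Finset ℕ) s) M * Nat.pair (Denumerable.eqv (Finset ℕ) s) M + i =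
      Nat.pair i (Nat.pair (Denumerable.eqv (Finset ℕ) s) M) := by
    rw [Nat.pair.eq_1 i, if_pos (lt_of_lt_of_le hi hb)]
  rw [e]
  simp only [P, mem_ofPred_eq, Nat.unpair_pair, Equiv.symm_apply_apply]

def Y : Type := ℕ → Bool

noncomputable instance : MetricSpace Y := PiNat.metricSpace (E := fun _ => Bool)

instance : CompactSpace Y := inferInstanceAs (CompactSpace (ℕ → Bool))

lemma cev (i : ℕ) : Continuous fun x : Y => x i := continuous_apply (A := fun _ : ℕ => Bool) i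

def ok : Set Y := {x | ∀ i j, i < j → x i = true → x j = true → j - i ∈ P}

lemma ok_closed : IsClosed ok := by
  have : ok = ⋂ i, ⋂ j, (fun x : Y => (x i, x j)) ⁻¹'
      {p | i < j → p.1 = true → p.2 = true → j - i ∈ P} := by
    ext x
    simp only [ok, mem_ofPred_eq, mem_iInter, mem_preimage]
  rw [this]
  exact isClosed_iInter fun i => isClosed_iInter fun j =>
    (isClosed_discrete _).preimage ((cev i).prodMk (cev j))

def T (x : ok) : ok := ⟨fun i => x.1 (i + 1), fun i j h a b => by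
  have := x.2 (i + 1) (j + 1) (by omega) a b
  rwa [Nat.add_sub_add_right] at this⟩

lemma iter (n : ℕ) (x : ok) (i : ℕ) : (T^[n] x).1 i = x.1 (i + n) := by
  induction n generalizing i with
  | zero => rfl
  | succ n ih =>
    rw [Function.iterate_succ_apply']
    exact (ih (i + 1)).trans (congrArg x.1 (by omega))

lemma dle (x y : ok) (L : ℕ) : dist y x ≤ (1 / 2) ^ L ↔ ∀ i < L, y.1 i = x.1 i :=
  (PiNat.mem_cylinder_iff_dist_le (E := fun _ => Bool) (x := x.1) (y := y.1) (n := L)).symm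

lemma small {ε : ℝ} (h : 0 < ε) (N : ℕ) : ∃ L, N ≤ L ∧ (1 / 2 : ℝ) ^ L < ε := by
  obtain ⟨L, hL⟩ := exists_pow_lt_of_lt_one h (by norm_num : (1 / 2 : ℝ) < 1)
  exact ⟨max N L, le_max_left _ _, lt_of_le_of_lt
    (pow_le_pow_of_le_one (by norm_num) (by norm_num) (le_max_right _ _)) hL⟩

/-- `x` on `[0,L)`, `y` on `[n,n+L)`, zero elsewhere. -/
def glue (x y : ok) (L n : ℕ) (hn : L ≤ n)
    (h : ∀ i < L, ∀ j < L, x.1 i = true → y.1 j = true → n + j - i ∈ P) : ok :=
  ⟨fun i => if i < L then x.1 i else if n ≤ i ∧ i < n + L then y.1 (i - n) else false, by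
    intro i j hij a b
    dsimp only at a b
    split_ifs at a b with a1 b1 b2 b1 a2 b2
    · exact x.2 i j hij a b
    · have := h i a1 (j - n) (by omega) a b
      rwa [show n + (j - n) - i = j - i by omega] at this
    · omega
    · have := y.2 (i - n) (j - n) (by omega) a b
      rwa [show j - n - (i - n) = j - i by omega] at this⟩

lemma glue_l (x y : ok) (L n hn h) (i : ℕ) (hi : i < L) : (glue x y L n hn h).1 i = x.1 i :=
  if_pos hi

lemma glue_r (x y : ok) (L n hn h) (i : ℕ) (hi : i < L) :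
    (T^[n] (glue x y L n hn h)).1 i = y.1 i := by
  rw [iter]
  refine (if_neg (by omega)).trans ((if_pos (by omega)).trans (congrArg y.1 (by omega)))

def pt (c : ℕ) : ok := ⟨fun i => decide (i = c), fun i j h a b => by
  have a' := of_decide_eq_true a
  have b' := of_decide_eq_true b
  omega⟩

def zero : ok := ⟨fun _ => false, fun _ _ _ a => by cases a⟩

lemma sens (U : Set ok) (hU : IsOpen U) (x : ok) (hx : x ∈ U) (N : ℕ) : ∃ L, N < L ∧
    ∀ δ < 1, ∀ n, L ≤ n → (∀ i < L, x.1 i = true → n - i ∈ P) → n ∈ S T U δ := by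
  obtain ⟨ε, e0, he⟩ := Metric.isOpen_iff.1 hU x hx
  obtain ⟨L, hN, hL⟩ := small e0 (N + 1)
  refine ⟨L, hN, fun δ hδ n hn h => ?_⟩
  have h1 : ∀ i < L, ∀ j < L, x.1 i = true → (pt 0).1 j = true → n + j - i ∈ P := by
    intro i hi j _ a b
    rw [of_decide_eq_true b]
    exact h i hi a
  have h2 : ∀ i < L, ∀ j < L, x.1 i = true → zero.1 j = true → n + j - i ∈ P :=
    fun _ _ _ _ _ b => by cases b
  refine ⟨glue x (pt 0) L n hn h1, he (lt_of_le_of_lt ((dle _ _ L).2 (glue_l _ _ _ _ _ _)) hL),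
    glue x zero L n hn h2, he (lt_of_le_of_lt ((dle _ _ L).2 (glue_l _ _ _ _ _ _)) hL), ?_⟩
  have ne : (T^[n] (glue x (pt 0) L n hn h1)).1 0 ≠ (T^[n] (glue x zero L n hn h2)).1 0 := by
    rw [glue_r _ _ _ _ _ _ 0 (by omega), glue_r _ _ _ _ _ _ 0 (by omega)]
    decide
  have := PiNat.dist_eq_of_ne (E := fun _ => Bool) (fun e => ne (congrFun e 0))
  have f : PiNat.firstDiff (E := fun _ => Bool) (T^[n] (glue x (pt 0) L n hn h1)).1
      (T^[n] (glue x zero L n hn h2)).1 = 0 := by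
    by_contra c
    exact ne (PiNat.apply_eq_of_lt_firstDiff (E := fun _ => Bool) (Nat.pos_of_ne_zero c))
  rw [f, pow_zero] at this
  exact lt_of_lt_of_eq hδ this.symm

lemma wm : WeaklyMixing T := by
  rintro U V hU ⟨x, hx⟩ hV ⟨y, hy⟩
  obtain ⟨ε, e0, he⟩ := Metric.isOpen_iff.1 hU x hx
  obtain ⟨η, n0, hn⟩ := Metric.isOpen_iff.1 hV y hy
  obtain ⟨L, -, hL⟩ := small (lt_min e0 n0) 0
  obtain ⟨a, -, ha⟩ := gen (Finset.range (2 * L)) (2 * L)
  have g : ∀ u v : ok, ∀ i < L, ∀ j < L, u.1 i = true → v.1 j = true → a + L + j - i ∈ P := by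
    intro u v i hi j hj _ _
    rw [show a + L + j - i = a + (L + j - i) by omega]
    exact (ha _ (by omega)).2 (Finset.mem_range.2 (by omega))
  refine ⟨a + L, _, ⟨(glue x.1 y.1 L (a + L) (by omega) (g _ _),
    glue x.2 y.2 L (a + L) (by omega) (g _ _)), he ?_, rfl⟩, hn ?_⟩
  · rw [Metric.mem_ball, Prod.dist_eq]
    exact max_lt (lt_of_le_of_lt ((dle _ _ L).2 (glue_l _ _ _ _ (by omega) (g _ _))) (lt_min_iff.1 hL).1)
      (lt_of_le_of_lt ((dle _ _ L).2 (glue_l _ _ _ _ (by omega) (g _ _))) (lt_min_iff.1 hL).1)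
  · rw [Metric.mem_ball, Prod.dist_eq, Prod.map_iterate]
    exact max_lt (lt_of_le_of_lt ((dle _ _ L).2 (glue_r _ _ _ _ (by omega) (g _ _))) (lt_min_iff.1 hL).2)
      (lt_of_le_of_lt ((dle _ _ L).2 (glue_r _ _ _ _ (by omega) (g _ _))) (lt_min_iff.1 hL).2)

lemma tr : Transitive T := by
  intro U V hU nU hV nV
  obtain ⟨n, _, ⟨z, hz, rfl⟩, h⟩ := wm (U ×ˢ U) (V ×ˢ V) (hU.prod hU) (nU.prod nU) (hV.prod hV)
    (nV.prod nV)
  rw [Prod.map_iterate] at h
  exact ⟨n, _, ⟨z.1, hz.1, rfl⟩, h.1⟩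

lemma thick : ThicklySensitive T := by
  refine ⟨1 / 2, by norm_num, ?_⟩
  rintro U hU ⟨x, hx⟩ K
  obtain ⟨L, -, h⟩ := sens U hU x hx 0
  obtain ⟨a, -, ha⟩ := gen (Finset.range (L + K)) (L + K)
  refine ⟨a + L, fun t ht => h _ (by norm_num) _ (by omega) fun i hi _ => ?_⟩
  rw [show a + L + t - i = a + (L + t - i) by omega]
  exact (ha _ (by omega)).2 (Finset.mem_range.2 (by omega))

lemma nofilter : ¬ FilterSensitive T := by
  rintro ⟨δ, d0, -, hne, hI⟩
  have d1 : δ < 1 := by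
    by_contra c
    apply hne
    refine eq_univ_of_forall fun A => ⟨univ, isOpen_univ, ⟨zero, trivial⟩, ?_⟩
    rintro n ⟨x, -, y, -, h⟩
    have := (dle (T^[n] y) (T^[n] x) 0).2 (fun i hi => by omega)
    rw [pow_zero] at this
    exact absurd (h.trans_le this) c
  obtain ⟨k, -, hk⟩ := small d0 0
  obtain ⟨a₀, a1, ha₀⟩ := gen ∅ (k + 1)
  have op : ∀ c, S T {x : ok | x.1 c = true} δ ∈ fam T δ := fun c =>
    ⟨_, (isOpen_discrete {true}).preimage ((cev c).comp continuous_subtype_val),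
      ⟨pt c, decide_eq_true rfl⟩, Subset.rfl⟩
  obtain ⟨W, hW, ⟨x, hx⟩, hs⟩ := hI _ (op 0) _ (op (a₀ + k))
  obtain ⟨L, hL, h⟩ := sens W hW x hx (a₀ + k)
  have key : ∀ c < L, (∀ f, x.1 f = true → ¬ (f ≤ c ∧ c < f + k)) →
      ∃ n ∈ S T W δ, n ∉ S T {x : ok | x.1 c = true} δ := by
    intro c hc hf
    obtain ⟨a, -, ha⟩ := gen ((Finset.range (L + k + 1)).filter
      fun i => ¬ (L - c ≤ i ∧ i < L - c + k)) (L + k + 1)
    refine ⟨a + L, h δ d1 _ (by omega) fun i hi hxi => ?_, ?_⟩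
    · rw [show a + L - i = a + (L - i) by omega]
      have := hf i hxi
      exact (ha _ (by omega)).2 (Finset.mem_filter.2 ⟨Finset.mem_range.2 (by omega), by omega⟩)
    · rintro ⟨u, hu, v, hv, huv⟩
      have z : ∀ w : ok, w.1 c = true → ∀ i < k, (T^[a + L] w).1 i = false := by
        intro w hw i hi
        rw [iter]
        by_contra q
        have := w.2 c (i + (a + L)) (by omega) hw (by simpa using q)
        rw [show i + (a + L) - c = a + (L - c + i) by omega] at this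
        have := (Finset.mem_filter.1 ((ha _ (by omega)).1 this)).2
        omega
      have := (dle (T^[a + L] v) (T^[a + L] u) k).2 fun i hi => (z u hu i hi).trans (z v hv i hi).symm
      linarith
  by_cases x0 : x.1 0 = true
  · obtain ⟨n, n1, n2⟩ := key (a₀ + k) hL fun f hf c => by
      have := x.2 0 f (by omega) x0 hf
      rw [show f - 0 = a₀ + (f - a₀) by omega] at this
      exact absurd ((ha₀ _ (by omega)).1 this) (by simp)
    exact n2 (hs n1).2
  · obtain ⟨n, n1, n2⟩ := key 0 (by omega) fun f hf c => x0 (by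
      rwa [show f = 0 by omega] at hf)
    exact n2 (hs n1).1

theorem result : ∃ (X : Type) (_ : MetricSpace X) (_ : CompactSpace X) (T : X → X),
    Nontrivial X ∧ Continuous T ∧ Function.Surjective T ∧ WeaklyMixing T ∧ Transitive T ∧
      ThicklySensitive T ∧ ¬ FilterSensitive T := by
  refine ⟨ok, inferInstance, isCompact_iff_compactSpace.1 ok_closed.isCompact, T,
    ⟨pt 0, zero, fun e => ?_⟩, ?_, fun y => ?_, wm, tr, thick, nofilter⟩
  · exact absurd (congrFun (congrArg Subtype.val e) 0) (by decide)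
  · refine Continuous.subtype_mk ?_ _
    exact (continuous_pi fun i => (cev (i + 1)).comp continuous_subtype_val :
      Continuous fun x : ok => (fun i => x.1 (i + 1) : ℕ → Bool))
  · refine ⟨⟨fun i => if i = 0 then false else y.1 (i - 1), fun i j h a b => ?_⟩, ?_⟩
    · dsimp only at a b
      split_ifs at a b with a1 b1
      have := y.2 (i - 1) (j - 1) (by omega) a b
      rwa [show j - 1 - (i - 1) = j - i by omega] at this
    · rfl

end Pool.Agent.Results.MP_bfac72_an.Counter
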